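import Pool.Agent.H326R2.TabU

/-!
# First case of `x ^ (2 s) + y ^ (2 s) = z ^ p` for infinitely many pairs of exponents

The equation has no solution in coprime integers `x`, `y` with `x y` prime to `p` (the first case)

* for every Sophie Germain prime `s ≥ 5` and every odd `p` (prime or not, as large as one likes) with
  `p ≢ 0, 1` modulo `s` and `p ≢ 0, 1, -1` modulo `2 s + 1`;
* for all pairs of different primes `5 ≤ s, p < 100` outside a list of 16 pairs.

The proof is a descent to the Gaussian integers and one auxiliary prime; no modularity is used.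

Source: `Pool.Agent.H326R2` of the starting library, never handed in.
-/

set_option autoImplicit false

namespace Pool.Agent.Results.MP_2738db_nt.FirstCaseEqualEven

/-- The 16 pairs of small primes not treated. -/
def exceptions : List (ℕ × ℕ) := [(5, 11), (5, 31), (5, 41), (5, 61), (5, 71), (7, 29), (7, 43),
  (7, 71), (11, 23), (11, 67), (11, 89), (13, 53), (13, 79), (23, 47), (29, 59), (41, 83)]

/-- The pairs of exponents: `s ≥ 5` is a Sophie Germain prime and `p` is odd, not `0` or `1` modulo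
`s`, not `0`, `1` or `-1` modulo `2 s + 1`; or `s`, `p` are different primes from 5 to 97, and
`(s, p)` is not in the list of exceptions. -/
def Exponents (s p : ℕ) : Prop :=
  (s.Prime ∧ 5 ≤ s ∧ (2 * s + 1).Prime ∧ Odd p ∧ (p : ZMod s) ≠ 0 ∧ (p : ZMod s) ≠ 1 ∧
    (p : ZMod (2 * s + 1)) ≠ 0 ∧ (p : ZMod (2 * s + 1)) ≠ 1 ∧ (p : ZMod (2 * s + 1)) ≠ -1) ∨
  (s.Prime ∧ p.Prime ∧ 5 ≤ s ∧ 5 ≤ p ∧ s < 100 ∧ p < 100 ∧ s ≠ p ∧ (s, p) ∉ exceptions)

theorem exists_aux {s p : ℕ} (h : Exponents s p) :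
    Odd s ∧ Odd p ∧ ∃ t : ℕ, t.Prime ∧ Pool.Agent.H326R2.AuxU s p t := by
  rcases h with ⟨hs, hs5, ht, hp, h0, h1, k0, k1, k2⟩ | ⟨hs, hp, hs5, hp5, hs1, hp1, hsp, hexc⟩
  · exact ⟨hs.odd_of_ne_two (by omega), hp, 2 * s + 1, ht,
      Pool.Agent.H326R2.auxU_sg s p hs hs5 ht hp h0 h1 k0 k1 k2⟩
  · obtain ⟨t, P, h1, h2, h3, h4, h5⟩ := Pool.Agent.H326R2.tab_spec Pool.Agent.H326R2.tabU_ok
      Pool.Agent.H326R2.tabU_cov s p hs hp hs5 hp5 hs1 hp1 hsp hexc
    exact ⟨hs.odd_of_ne_two (by omega), hp.odd_of_ne_two (by omega), t, h1,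
      Pool.Agent.H326R2.chkU_sound h3 h1 P h4 h5⟩

/-- **Main theorem.** -/
theorem result (s p : ℕ) (h : Exponents s p) (x y z : ℤ) (hxy : IsCoprime x y)
    (hxp : IsCoprime x (p : ℤ)) (hyp : IsCoprime y (p : ℤ)) :
    x ^ (2 * s) + y ^ (2 * s) ≠ z ^ p := by
  obtain ⟨hs, hp, t, ht, haux⟩ := exists_aux h
  intro heq
  refine Pool.Agent.H326R2.main_u s p t hs hp ht haux x y z hxp hyp hxy ?_
  rw [← heq, ← pow_mul, ← pow_mul, mul_comm s 2]

end Pool.Agent.Results.MP_2738db_nt.FirstCaseEqualEven
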