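import Pool.Agent.H213R3.TabG

/-!
# First case of `x ^ (2 p) + y ^ 2 = z ^ (2 r)` for infinitely many pairs of exponents

The equation has no solution in coprime integers `x`, `y`, `z` with `x` even and prime to `r`

* for every Sophie Germain prime `p ≥ 5` and every odd `r` (prime or not) with `r ≢ 0, 1` modulo
  `p`, `r ≢ 0, 1, -1` modulo `2 p + 1` and `5 ^ r ≢ 4 ^ (r - 1)` modulo `2 p + 1`;
* for all pairs of different primes `5 ≤ p, r < 256`, except `(5, 241)`.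

The proof is a descent to the Gaussian integers and one auxiliary prime; no modularity is used. Of the
squares `x ^ (2 p)` and `y ^ 2` exactly one is even in every coprime solution; the theorem is about
the case that it is the first one.

Source: `Pool.Agent.H326R2`, `Pool.Agent.H213R3.TabG` of the starting library, never handed in.
-/

set_option autoImplicit false

namespace Pool.Agent.Results.MP_2738db_nt.FirstCaseMiddleSquare

/-- The pairs of exponents: `p ≥ 5` is a Sophie Germain prime and `r` is odd, not `0` or `1` modulo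
`p`, not `0`, `1` or `-1` modulo `2 p + 1`, and `5 ^ r ≠ 4 ^ (r - 1)` modulo `2 p + 1`; or `p`, `r`
are different primes from 5 to 251 with `(p, r) ≠ (5, 241)`. -/
def Exponents (p r : ℕ) : Prop :=
  (p.Prime ∧ 5 ≤ p ∧ (2 * p + 1).Prime ∧ Odd r ∧ (r : ZMod p) ≠ 0 ∧ (r : ZMod p) ≠ 1 ∧
    (r : ZMod (2 * p + 1)) ≠ 0 ∧ (r : ZMod (2 * p + 1)) ≠ 1 ∧ (r : ZMod (2 * p + 1)) ≠ -1 ∧
    (5 : ZMod (2 * p + 1)) ^ r ≠ 4 ^ (r - 1)) ∨
  (p.Prime ∧ r.Prime ∧ 5 ≤ p ∧ 5 ≤ r ∧ p < 256 ∧ r < 256 ∧ p ≠ r ∧ (p, r) ≠ (5, 241))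

theorem exists_aux {p r : ℕ} (h : Exponents p r) :
    Odd p ∧ Odd r ∧ ∃ t : ℕ, t.Prime ∧ t ≠ 2 ∧ Pool.Agent.H326R2.AuxG p r t := by
  rcases h with ⟨hp, hp5, ht, hr, h0, h1, k0, k1, k2, k3⟩ | ⟨hp, hr, hp5, hr5, hp1, hr1, hpr, hexc⟩
  · exact ⟨hp.odd_of_ne_two (by omega), hr, 2 * p + 1, ht, by omega,
      Pool.Agent.H326R2.auxG_sg p r hp hp5 ht hr h0 h1 k0 k1 k2 k3⟩
  · exact ⟨hp.odd_of_ne_two (by omega), hr.odd_of_ne_two (by omega),
      Pool.Agent.H213R3.TabG.exists_aux p r hp hr hp5 hr5 hp1 hr1 hpr hexc⟩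

/-- **Main theorem.** -/
theorem result (p r : ℕ) (h : Exponents p r) (x y z : ℤ) (hx : Even x) (hxy : IsCoprime x y)
    (hxr : IsCoprime x (r : ℤ)) : x ^ (2 * p) + y ^ 2 ≠ z ^ (2 * r) := by
  obtain ⟨hp, hr, t, ht, ht2, haux⟩ := exists_aux h
  intro heq
  refine Pool.Agent.H326R2.main_gauss p r t hp hr ht ht2 haux x y z hx hxr hxy ?_
  rw [← pow_mul, ← pow_mul, mul_comm p 2, mul_comm r 2, heq]

end Pool.Agent.Results.MP_2738db_nt.FirstCaseMiddleSquare
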