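import Pool.Agent.TH944.Beal.MainTwo
import Pool.Agent.TH944.Beal.TabTwo

/-!
# First case of `x ^ (2 p) + y ^ (2 q) = w ^ 2` for infinitely many pairs of exponents

The exponents `(2 p, 2 q, 2)` satisfy `1 / (2 p) + 1 / (2 q) + 1 / 2 < 1`. In a coprime solution one
of `x`, `y` is even; call it `x`. If `x` is prime to the other exponent `q` (the first case), then
there is no solution

* for every Sophie Germain prime `p` and every odd `q` (prime or not, as large as one likes) with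
  `q ≢ 0, 1, -1` modulo `p` and modulo `2 p + 1`;
* for all pairs of different primes `5 ≤ p, q < 256`, except `(5, 11)`, `(5, 151)`, `(7, 43)` and
  `(7, 211)`.

No modularity is used. With `w = z ^ r` this includes the equations
`x ^ (2 p) + y ^ (2 q) = z ^ (2 r)` for all `r`.

Source: `Pool.Agent.H326R2` and `Pool.Agent.TH944.Beal` of the starting library, never handed in.
-/

set_option autoImplicit false

namespace Pool.Agent.Results.MP_2738db_nt.FirstCaseSquareSum

/-- `q` is not congruent to `0`, `1` or `-1` modulo `n`. -/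
def Far (q n : ℕ) : Prop := (q : ZMod n) ≠ 0 ∧ (q : ZMod n) ≠ 1 ∧ (q : ZMod n) ≠ -1

/-- The pairs of exponents: `p` is a Sophie Germain prime and `q` is odd and far from `0` modulo `p`
and modulo `2 p + 1`; or `p`, `q` are different primes from 5 to 251 outside a list of four. -/
def Exponents (p q : ℕ) : Prop :=
  (p.Prime ∧ (2 * p + 1).Prime ∧ Odd q ∧ Far q p ∧ Far q (2 * p + 1)) ∨
  (p.Prime ∧ q.Prime ∧ 5 ≤ p ∧ 5 ≤ q ∧ p < 256 ∧ q < 256 ∧ p ≠ q ∧
    (p, q) ∉ [((5 : ℕ), (11 : ℕ)), (5, 151), (7, 43), (7, 211)])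

theorem exists_aux {p q : ℕ} (h : Exponents p q) :
    Odd p ∧ Odd q ∧ ∃ t : ℕ, t.Prime ∧ t ≠ 2 ∧ Pool.Agent.H326R2.Aux 2 p q t := by
  rcases h with ⟨hp, ht, hq, h1, h2⟩ | ⟨hp, hq, hp5, hq5, hp1, hq1, hpq, hexc⟩
  · have hp5 := Pool.Agent.H326R2.five_le p q hp h1.1 h1.2.1 h1.2.2
    exact ⟨hp.odd_of_ne_two (by omega), hq, 2 * p + 1, ht, by omega,
      Pool.Agent.H326R2.aux_two p q hp ht hq h1.1 h1.2.1 h1.2.2 h2.1 h2.2.1 h2.2.2⟩
  · exact ⟨hp.odd_of_ne_two (by omega), hq.odd_of_ne_two (by omega),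
      Pool.Agent.TH944.Beal.TabTwo.exists_aux p q hp hq hp5 hq5 hp1 hq1 hpq hexc⟩

/-- **Main theorem.** -/
theorem result (p q : ℕ) (h : Exponents p q) (x y w : ℤ) (hx : Even x) (hxy : IsCoprime x y)
    (hxq : IsCoprime x (q : ℤ)) : x ^ (2 * p) + y ^ (2 * q) ≠ w ^ 2 := by
  obtain ⟨hp, hq, t, ht, ht2, haux⟩ := exists_aux h
  intro heq
  refine Pool.Agent.TH944.Beal.main_two p q t hp hq ht ht2 haux x y w hx hxq hxy ?_
  rw [← heq, ← pow_mul, ← pow_mul, mul_comm p 2, mul_comm q 2]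

end Pool.Agent.Results.MP_2738db_nt.FirstCaseSquareSum
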