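import Mathlib
import Pool.Agent.H107.FCZero

/-!
# The Fermat-Catalan equation near a point: an exceptional set of dimension zero

There is a set `E` of reals of Hausdorff dimension zero such that for each real `z` outside `E` and each `σ > 0` there is
`R` such that only finitely many value triples `(a ^ m, b ^ n, c ^ k)` come from solutions with at least one exponent
`≥ R` and `|a / c - z| ≤ max (a, b, c) ^ (-σ)`.
-/

set_option autoImplicit false

namespace Pool.Agent.Results.MP_2738db_nt.NearPointsDimensionZero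

/-- the value triples of the solutions of `a ^ m + b ^ n = c ^ k` in pairwise coprime positive bases, with exponents at
least `2`, at least one of them at least `R`, and with `(a, b, c)` in the set `W` -/
def Values (R : ℕ) (W : Set (ℕ × ℕ × ℕ)) : Set (ℕ × ℕ × ℕ) :=
  {v | ∃ a b c m n k : ℕ, 0 < a ∧ 0 < b ∧ 0 < c ∧ Nat.Coprime a b ∧ Nat.Coprime a c ∧ Nat.Coprime b c ∧
    2 ≤ m ∧ 2 ≤ n ∧ 2 ≤ k ∧ (R ≤ m ∨ R ≤ n ∨ R ≤ k) ∧ a ^ m + b ^ n = c ^ k ∧ (a, b, c) ∈ W ∧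
    v = (a ^ m, b ^ n, c ^ k)}

/-- the largest base -/
def big (t : ℕ × ℕ × ℕ) : ℕ := max t.1 (max t.2.1 t.2.2)

lemma values_finite {R : ℕ} {W : Set (ℕ × ℕ × ℕ)}
    (h : {t | t ∈ Pool.Agent.H107.FC.Sol R ∧ t.2 ∈ W}.Finite) : (Values R W).Finite := by
  refine (h.image Prod.fst).subset ?_
  rintro v ⟨a, b, c, m, n, k, h1, h2, h3, h4, h5, h6, h7, h8, h9, h10, h11, h12, rfl⟩
  exact ⟨((a ^ m, b ^ n, c ^ k), (a, b, c)),
    ⟨⟨m, n, k, h1, h2, h3, h4, h5, h6, h7, h8, h9, h10, h11, rfl⟩, h12⟩, rfl⟩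

/-- near a point of a metric space -/
theorem metric {M : Type} [MetricSpace M] (φ : ℕ × ℕ × ℕ → M) :
    ∃ E : Set M, dimH E = 0 ∧ ∀ z ∉ E, ∀ σ : ℝ, 0 < σ → ∃ R : ℕ,
      (Values R {t | dist (φ t) z ≤ (big t : ℝ) ^ (-σ)}).Finite := by
  obtain ⟨E, h1, h2⟩ := Pool.Agent.H107.ME.dim_zero (fun t : (ℕ × ℕ × ℕ) × (ℕ × ℕ × ℕ) => φ t.2)
    Pool.Agent.H107.FC.size Pool.Agent.H107.FC.one_le_size Pool.Agent.H107.FC.Sol
    Pool.Agent.H107.FC.count
  refine ⟨E, h1, fun z hz σ hσ => ?_⟩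
  obtain ⟨R, hR⟩ := h2 z hz σ hσ
  refine ⟨R, values_finite (hR.subset ?_)⟩
  rintro t ⟨g1, g2⟩
  refine ⟨g1, ?_⟩
  have g3 : Pool.Agent.H107.FC.size t = (big t.2 : ℝ) := by
    obtain ⟨m, n, k, g4, -⟩ := g1
    show max 1 ((max t.2.1 (max t.2.2.1 t.2.2.2) : ℕ) : ℝ) = ((max t.2.1 (max t.2.2.1 t.2.2.2) : ℕ) : ℝ)
    apply max_eq_right
    have g5 : 1 ≤ max t.2.1 (max t.2.2.1 t.2.2.2) := le_max_of_le_left g4
    exact_mod_cast g5
  show dist (φ t.2) z ≤ (Pool.Agent.H107.FC.size t) ^ (-σ)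
  rw [g3]
  exact g2

/-- **Theorem.** (1) There is a set `E` of reals of Hausdorff dimension `0` such that for each real `z` outside `E` and
each `σ > 0` there is `R` such that the set of the value triples `(a ^ m, b ^ n, c ^ k)` of the solutions of
`a ^ m + b ^ n = c ^ k` (pairwise coprime positive bases, exponents at least `2`, at least one of them at least `R`) with
`|a / c - z| ≤ max (a, b, c) ^ (-σ)` is finite. (2) The same holds for every map `φ` of the triples of bases to a metric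
space in place of `a / c`. -/
theorem result :
    (∃ E : Set ℝ, dimH E = 0 ∧ ∀ z ∉ E, ∀ σ : ℝ, 0 < σ → ∃ R : ℕ,
      (Values R {t | |(t.1 : ℝ) / t.2.2 - z| ≤ (big t : ℝ) ^ (-σ)}).Finite) ∧
    (∀ (M : Type) [MetricSpace M] (φ : ℕ × ℕ × ℕ → M), ∃ E : Set M, dimH E = 0 ∧
      ∀ z ∉ E, ∀ σ : ℝ, 0 < σ → ∃ R : ℕ, (Values R {t | dist (φ t) z ≤ (big t : ℝ) ^ (-σ)}).Finite) :=
  ⟨metric (fun t : ℕ × ℕ × ℕ => (t.1 : ℝ) / t.2.2), fun _ _ φ => metric φ⟩

end Pool.Agent.Results.MP_2738db_nt.NearPointsDimensionZero
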